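import Pool.Agent.W895.PC.XorFam

/-!
# The inclusion of NP in PSPACE is proper in linear time, even for PP instead of NP

The model is the one of time-space lower bounds: branching programs on `n` Boolean variables,
`2 ^ S` nodes stand for space `S`, the number of queries for the time. The analogue of `PP` (and so
of `NP`, of `BPP` and of the classes in between) is given by a finite family of programs (one for
each sequence of coin tosses) and a threshold for the number of accepting programs. The analogue of
`PSPACE` is alternation, which we need with two rounds only.

We give functions `F n` which are computed, as well as their complements, with two rounds of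
alternation with at most `β n` bits, where `β` tends to infinity as slowly as one likes, followed
by a single pass over the input in a fixed order by a program with `β n * n` nodes. In time `k n`
and space `S` they have no computations of the type `PP` with at most `n / (β n * S)` coin tosses;
here `k` is any constant and `S` is anything between `log n` and `n / β n`.

The function `F n` is the parity of a slowly growing number of random quadratic forms in blocks.
The forms are those of `Pool.Agent.H554R2` (results `NondetNotRandomised` and
`LinearTimeBothSides`, proved by many seats), as well as the rectangles (after Ajtai; Beame, Saks,
Sun, Vee) in the inputs on which a program passes through given nodes at given times. There each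
set of inputs was compared with a constant fraction of it which lies in large rectangles; the new
point is that all inputs but an exponentially small fraction `2 ^ (- n / (C S))` lie in large
rectangles, if one lets the number of the time segments grow with `n / S`, chooses the kinds of the
segments at random for all scales at the same time, and selects the scale for each input by an
observable quantity (concentration by the method of bounded differences). So the parity has
correlation at most `2 ^ (- n / (C S))` with each program of length `k n` with `2 ^ S` nodes.
-/

set_option autoImplicit false

namespace Pool.Agent.Results.MP_71c844_lc.AlternationVersusPP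

open Pool.Agent.H554R2.Sem Pool.Agent.H554R2.Coin

/-- The branching program `P` accepts the input `x` after at most `τ` queries. -/
def Acc {n : ℕ} (P : BP (Fin n) Bool) (τ : ℕ) (x : Pt n) : Prop :=
  ∃ l, P.Comp x l true ∧ l.length ≤ τ

/-- The function `f` is computed with two rounds of alternation and one pass: there are programs
`U a b` with at most `m * n` nodes, `a < 2 ^ m`, `b < m`, each of which reads on all inputs the same
variables in the same order, each variable at most once, and `f x` is true if and only if for some
`a` all the programs `U a b` accept `x`. -/
def TwoRounds {n : ℕ} (m : ℕ) (f : Pt n → Bool) : Prop :=
  ∃ U : Fin (2 ^ m) → Fin m → BP (Fin n) Bool,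
    (∀ a b, Fintype.card (U a b).State ≤ m * n ∧
      ∃ l : List (Fin n), l.Nodup ∧ ∀ x : Pt n, ∃ c, (U a b).Comp x l c) ∧
    ∀ x, f x = true ↔ ∃ a, ∀ b, ∃ l, (U a b).Comp x l true

/-- The function `f` has no computation of the type `PP` in time `k * n` and space `S` with `M`
sequences of coin tosses: for all `I ≤ M`, all programs `P ω`, `ω < I`, with at most `2 ^ S` nodes,
all thresholds `θ` and all `τ ≤ k * n` there is an `x` for which it is not true that `f x` is true
if and only if at least `θ` of the programs accept `x` within `τ` queries. -/
def NoPP {n : ℕ} (k S M : ℕ) (f : Pt n → Bool) : Prop :=
  ∀ τ ≤ k * n, ∀ (I θ : ℕ) (P : Fin I → BP (Fin n) Bool), I ≤ M →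
    (∀ ω, Fintype.card (P ω).State ≤ 2 ^ S) →
    ∃ x, ¬ (f x = true ↔ θ ≤ Nat.card {ω // Acc (P ω) τ x})

/-- Let `β n` tend to infinity, as slowly as one likes.  There is a family of Boolean functions
`F n` such that for all constants `k` and all large `n` the function `F n` and its complement are
computed with two rounds of alternation with `β n` bits and one pass over the input, whereas `F n`
has no computation of the type `PP` in time `k n` and space `S` with `n / (β n * S)` coin tosses,
for all `S` between `log n` and `n / β n`. -/
theorem result (β : ℕ → ℕ) (hβ : Filter.Tendsto β Filter.atTop Filter.atTop) :
    ∃ F : ∀ n, Pt n → Bool, ∀ k : ℕ, ∃ N, ∀ n ≥ N,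
      TwoRounds (β n) (F n) ∧ TwoRounds (β n) (fun x => !F n x) ∧
      ∀ S, n ≤ 2 ^ S → β n * S ≤ n → NoPP k S (2 ^ (n / (β n * S))) (F n) :=
  Pool.Agent.W895.PC.xor_family β hβ

end Pool.Agent.Results.MP_71c844_lc.AlternationVersusPP
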