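import Pool.Agent.W901.FH.Law

/-!
# `P = NP` and the prediction of answers: how many help bits give how much advantage

This is about the first inclusion of the question.

Polynomial time is Mathlib's `Turing.TM2ComputableInPolyTime`, for functions on bit strings.

Let a polynomial-time algorithm make predictions for the answers to the `m` questions whether `y` is in
`A`, `y` in a list of `m` strings; it may abstain on some of them. How much can the number of right
predictions differ from the number of wrong ones, for every list, if the algorithm gets `k` bits of
help, which may depend on the list in any way?

`Help k t ε A`: the difference is at least `t` for all lists of `m ≥ m₀` strings of length at most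
`m ^ ε`; `HelpAll k t A`: for all lists of `m ≥ m₀` strings. There is a constant `C` such that for all
`k`, `t` with `t ^ 2 ≥ C * 2 ^ k` or `t ^ 2 ≥ (k + 1) * 2 ^ (k + 1)` and all `ε > 0`

`P = NP` iff `Help k t ε A` for some `NP`-hard set `A` iff `HelpAll k t A` for all `A` in `NP`,

while `HelpAll k t A` holds for all sets `A` whatsoever if `(t - 1) ^ 2 < 2 ^ k`. So without help
(`k = 0`) the difference `1` is free and the difference `2` gives `P = NP`; with one bit of help the
difference `2` is free and `3` gives `P = NP`.

Proof. Single-valued `NP` functions `x ↦ w` have polynomially long candidate lists: the prefixes of
`w` are found in a search tree, where a prefix `v` survives only if for all seeds of a hash function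
the `K = 2 ^ k` vectors of predictions for the label questions (whether the bit `i` of the label of the
prefix of `w` is one) are compatible with the label of `v`. The labels are all sign vectors with at
most `K` changes of sign, up to `K` further exceptional entries: polynomially many. By the theorem of
Borsuk and Ulam (in the form of Hobby and Rice) there is a step function with `K` jumps which is
orthogonal to all `K` vectors, and by Spencer's theorem (linear discrepancy) its at most `K` fractional
entries can be rounded such that all `K` scalar products are smaller than `C * √ K`. So for each seed
one label is incompatible; pairwise independent hashing of more than `2 * F ^ 2` prefixes to `F` labels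
hits the incompatible label for some seed. So few survive.

The vector of the answers to parallel `NP` questions is the value of a single-valued `NP` function
once the number of positive answers is known, so it has a short list of candidates, and
(`Pool.Agent.H579R6`, the theorem behind `MP_8f56c4_lc.ParallelQueriesCollapse`) hence `P = NP`.

Free advantage: the rows of a Hadamard matrix, by Parseval's equation.
-/

set_option autoImplicit false

namespace Pool.Agent.Results.MP_71c844_lc.AnswersWithHelp

open Pool.Agent.NPC Pool.Agent.W901.FH

theorem result : ∃ C : ℕ, ∀ (k t : ℕ) (ε : ℝ),
    (0 < ε → C * 2 ^ k ≤ t ^ 2 ∨ (k + 1) * 2 ^ (k + 1) ≤ t ^ 2 → List.TFAE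
      [∀ L : Set (List Bool), InNP L → InP L,
        ∃ A : Set (List Bool), NPHard A ∧ Help k t ε A,
        ∀ A : Set (List Bool), InNP A → HelpAll k t A]) ∧
    ((t - 1) ^ 2 < 2 ^ k → ∀ A : Set (List Bool), HelpAll k t A) :=
  help_law_np

end Pool.Agent.Results.MP_71c844_lc.AnswersWithHelp
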