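import Pool.Agent.W969.MC.Nfa4

/-!
Universality of nondeterministic automata and monotone circuits with few negations: the bound
`2 ^ (n ^ (1 - ε))`.

Let `A` be a nondeterministic automaton with the states `0, ..., n - 1` over the alphabet `{0, 1}`,
given by one bit for each possible transition, for each possible start state and for each possible
accepting state. Whether `A` accepts every word is a monotone function of these bits, and this
function is `PSPACE`-complete. It has monotone circuits of size `2 ^ (O(n))` (the subset
construction). Here it is shown that this is nearly optimal: monotone circuits for it need size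
`2 ^ (n ^ (1 - ε))`, for every `ε > 0`. The bound holds even if the circuit only has to accept the
automata that accept every word and to reject the automata that reject a word of length at most `n`,
so it holds for the `coNP`-complete problem, whether `A` accepts all words of length at most `n`,
as well. It also holds in a stronger model: the circuits compute with real numbers, their monotone
gates compute arbitrary nondecreasing real functions of two arguments (Pudlák's model), and there
may be further arbitrary gates, for instance NOT gates. If there are `γ log₂ n` NOT gates,
`0 ≤ γ < 2`, then the size is at least `2 ^ (n ^ (1 - γ / 2 - ε))`. (Two times `log₂ n + O(1)` NOT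
gates are as good as unlimited negation, by theorems of Markov and Fischer.)

The proof: `M` constraints, each on `a` of `m` variables with values in an alphabet with `q`
letters, on a sparse expanding hypergraph; the constraint number `i` is an arbitrary set of tuples
`X i`, and the function is: is there an assignment that satisfies all constraints. Monotone circuits
for it need size `q ^ (c m)` although the alphabet has only `q = m ^ (O(1) / a)` letters (this is the
bound behind `MP_8a52c3_lc.MonotoneTwoThirds`). An assignment is written as a word: one block for
each variable (its name and its value) and one block for each constraint (its name and the values of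
its variables). The automaton accepts all words that are not of this form, which it can do with few
states, since it guesses one bit that is wrong; and it accepts a word if the block of a constraint
`i` lists a tuple that is not allowed. For this it splits the block into two halves, guesses the
first half at its beginning and the second half in the middle, so that it needs only about
`q ^ (a / 2)` states, which is less than `M`, and the input bits are the transitions from a first
half to a second half. So all the blocks together have only `m ^ (1 + o(1))` states. Several copies
of the function can be combined: all blocks carry the number of the copy.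
-/

namespace Pool.Agent.Results.MP_71c844_lc.AutomataUniversality

/-- A real circuit with the input bits `Inp` and the gates `0, ..., s - 1`. Gate `i` has `w i`
inputs, namely `a i j`, each an input bit (`0` or `1`) or an earlier gate, and its value on the
input `x` is `val x i`. The gates outside `T` compute nondecreasing functions of at most two real
numbers. The output of a gate `i` in `T` depends in an arbitrary way on the bits that tell whether
`θ i j` is at most the `j`-th input (a NOT gate, for instance). The circuit accepts if the value of
gate `out` is at least `τ`. -/
structure RealCircuit (Inp : Type) where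
  s : ℕ
  T : Finset (Fin s)
  w : Fin s → ℕ
  a : (i : Fin s) → Fin (w i) → Inp ⊕ Fin s
  op : (i : Fin s) → (Fin (w i) → ℝ) → ℝ
  θ : (i : Fin s) → Fin (w i) → ℝ
  val : (Inp → Bool) → Fin s → ℝ
  out : Fin s
  τ : ℝ
  earlier : ∀ i j k, a i j = Sum.inr k → k < i
  mono : ∀ i ∉ T, w i ≤ 2 ∧ Monotone (op i)
  free : ∀ i ∈ T, ∀ z z' : Fin (w i) → ℝ, (∀ j, θ i j ≤ z j ↔ θ i j ≤ z' j) → op i z = op i z'
  spec : ∀ x i, val x i = op i (fun j =>
    Sum.elim (fun p => if x p = true then (1 : ℝ) else 0) (val x) (a i j))

/-- The size: the number of gates plus the number of inputs of the gates in `T`. -/
def RealCircuit.size {Inp : Type} (C : RealCircuit Inp) : ℕ := C.s + ∑ i ∈ C.T, C.w i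

/-- The product of the numbers `w i + 1` over the gates in `T`. It is `1` for monotone circuits and
`2 ^ t` if `T` consists of `t` NOT gates. -/
def RealCircuit.freedom {Inp : Type} (C : RealCircuit Inp) : ℕ := ∏ i ∈ C.T, (C.w i + 1)

/-- The bits that describe a nondeterministic automaton with the states `0, ..., n - 1` over the
alphabet `{0, 1}`: for `p`, `c`, `q`, whether there is a transition from `p` to `q` that reads `c`;
for each state, whether it is a start state; for each state, whether it is accepting. -/
abbrev Bits (n : ℕ) : Type := (Fin n × Bool × Fin n) ⊕ (Fin n ⊕ Fin n)

/-- The automaton that is described by the bits `x`. -/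
def automaton {n : ℕ} (x : Bits n → Bool) : NFA Bool (Fin n) where
  step p c := {q | x (Sum.inl (p, c, q)) = true}
  start := {q | x (Sum.inr (Sum.inl q)) = true}
  accept := {q | x (Sum.inr (Sum.inr q)) = true}

/-- For `0 ≤ γ < 2`, `ε > 0` and all large `n`: every real circuit that accepts all nondeterministic
automata with `n` states over `{0, 1}` that accept every word, that rejects all those that reject
some word of length at most `n`, and whose number `freedom` is at most `n ^ γ`, has size at least
`2 ^ (n ^ (1 - γ / 2 - ε))`. For `γ = 0`: monotone real circuits need size `2 ^ (n ^ (1 - ε))`. -/
theorem result (γ ε : ℝ) (hγ : 0 ≤ γ) (hγ2 : γ < 2) (hε : 0 < ε) :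
    ∃ n1 : ℕ, ∀ n : ℕ, n1 ≤ n → ∀ C : RealCircuit (Bits n),
      (∀ x, (∀ w : List Bool, w ∈ (automaton x).accepts) → C.τ ≤ C.val x C.out) →
      (∀ x, ∀ w : List Bool, w.length ≤ n → w ∉ (automaton x).accepts →
        ¬ C.τ ≤ C.val x C.out) →
      (C.freedom : ℝ) ≤ (n : ℝ) ^ γ →
      (2 : ℝ) ^ ((n : ℝ) ^ (1 - γ / 2 - ε)) ≤ (C.size : ℝ) := by
  obtain ⟨n1, H⟩ := Pool.Agent.W969.MC.nfa_main γ ε hγ hγ2 hε
  refine ⟨n1, ?_⟩
  intro n hn C hacc hrej hfree
  exact H n hn C.earlier C.mono C.free C.spec C.out C.τ hacc hrej hfree

end Pool.Agent.Results.MP_71c844_lc.AutomataUniversality
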