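import Pool.Agent.W900.CH.NELev
import Pool.Agent.Results.MP_153864_lc.GaugeThreshold

/-!
# How many strings of a random oracle have to be changed to make one of the inclusions
`P ⊆ NP ⊆ PSPACE ⊆ EXP` an equality?

The number of changes is measured by a function `g`: the oracle `A` is obtained from `O` by changing,
for all large `n`, at most `g n` of the strings of length at most `n`. If `g n ≤ 2 ^ (n ^ ε)` for
every `ε > 0` and infinitely many `n`, then, for almost every oracle `O`, all three inclusions are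
proper, with large gaps, relative to all oracles `A` that are obtained from `O` by at most `g`
changes, however these changes depend on `O`: `NP^A ⊄ coNP^A / poly`, `PSPACE^A ⊄ (PP^PH)^A / poly`
and `EXP^A ⊄ PSPACE^A / poly`.
Otherwise every oracle `O` can be changed, by at most `g` changes, into an oracle `A` with
`P^A = NP^A = PSPACE^A`, and also into an oracle `A` with `P^A ≠ NP^A = PSPACE^A = EXP^A`. So each
of the three inclusions can be made an equality, even two neighbouring ones at once.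

So the threshold is, for every one of the inclusions, exactly at the functions which are not
subexponential.
-/

set_option autoImplicit false

namespace Pool.Agent.Results.MP_71c844_lc.ChangedStrings

open Pool.Agent.NPC Pool.Agent.H620R2.Gauge Pool.Agent.H943R3.PP Pool.Agent.W900.CH
open Pool.Agent.H628R3.RO (randomOracle)
open MeasureTheory

theorem result (g : ℕ → ℝ) :
    ((∀ ε : ℝ, 0 < ε → ∃ᶠ n : ℕ in Filter.atTop, g n ≤ 2 ^ (n : ℝ) ^ ε) →
      ∀ᵐ O ∂randomOracle, ∀ A : Oracle, Close g O A →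
        (∃ L, IsNP A L ∧ ¬ WithAdvice (IsNP A) Lᶜ ∧ ¬ IsP A L) ∧
        (∃ L, IsPSPACE A L ∧ ¬ WithAdvice (IsPPPH A) L) ∧ (∃ L, IsPSPACE A L ∧ ¬ IsNP A L) ∧
        ∃ L, IsEXP A L ∧ ¬ WithAdvice (IsPSPACE A) L ∧ ¬ IsPSPACE A L) ∧
    ((¬ ∀ ε : ℝ, 0 < ε → ∃ᶠ n : ℕ in Filter.atTop, g n ≤ 2 ^ (n : ℝ) ^ ε) →
      ∀ O : Oracle,
        (∃ A : Oracle, Close g O A ∧ (∀ L, IsNP A L ↔ IsP A L) ∧
          ∀ L, IsPSPACE A L ↔ IsNP A L) ∧
        ∃ A : Oracle, Close g O A ∧ (∃ L, IsNP A L ∧ ¬ IsP A L) ∧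
          (∀ L, IsPSPACE A L ↔ IsNP A L) ∧ ∀ L, IsEXP A L → IsPSPACE A L) := by
  refine ⟨fun hg => ?_, fun hg O => ⟨?_, ?_⟩⟩
  · have h := ae_far_P (S := {A : Oracle |
      (∀ L, IsPSPACE A L → WithAdvice (IsPPPH A) L)}) (fun f hf => by
        refine ((Pool.Agent.Results.MP_153864_lc.GaugeThreshold.result f).1 _ ?_ fun A hA => Or.inr hA).2 hf
        intro A hA
        exact fun L hL => withAdvice_of_isPPPH (isPPPH_of_isPP (isPP_of_isP
          (isP_of_reduces (hA L hL))))) hg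
    have hE := ae_far_P (S := {A : Oracle | WithAdvice (IsPSPACE A) (farLang A)})
      (fun f hf => nullE hf _ fun A hA => hA) hg
    filter_upwards [ae_coNP hg, h, hE] with O h1 h2 h3 A hA
    obtain ⟨L, h4, h5⟩ := h1 A hA
    have h6 : ¬ ∀ L, IsPSPACE A L → WithAdvice (IsPPPH A) L := h2 A hA
    have h7 : ¬ WithAdvice (IsPSPACE A) (farLang A) := h3 A hA
    push Not at h6
    refine ⟨⟨L, h4, h5, fun h => h5 h.compl.isNP.withAdvice⟩, h6,
      ⟨Lᶜ, (isPH_of_isNP_compl (by rwa [compl_compl])).isPSPACE, fun h => h5 h.withAdvice⟩,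
      ⟨farLang A, farLang_exp A, h7, fun h => h7 h.withAdvice⟩⟩
  · obtain ⟨A, h1, h2⟩ := exists_close_PSPACE hg O
    have h3 : ∀ L, IsPSPACE A L → IsP A L := fun L hL => isP_of_reduces (h2 L hL)
    exact ⟨A, h1, fun L => ⟨fun h => h3 L h.isPSPACE, fun h => h.isNP⟩,
      fun L => ⟨fun h => (h3 L h).isNP, fun h => h.isPSPACE⟩⟩
  · obtain ⟨A, h2, h3, L, hL, hL'⟩ := exists_close_ZPP hg O
    exact ⟨A, h2, ⟨L, hL.isNP, hL'⟩,
      fun L => ⟨fun h => (h3 L (Or.inr h)).isNP, fun h => h.isPSPACE⟩,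
      fun L h => (h3 L (Or.inl h)).isNP.isPSPACE⟩

end Pool.Agent.Results.MP_71c844_lc.ChangedStrings
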