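import Pool.Agent.W990.Gap.Alg
import Pool.Agent.W990.Gap.Growth

/-!
# How the gap between `P` and `EXP` can be distributed over the inclusions `P ⊆ NP ⊆ PSPACE ⊆ EXP`

For nondecreasing functions `G₁, G₂, G₃` whose composition is exponential (up to polynomials; and
the same for `G₁, G₁, G₃`) there is an oracle relative to which `NP ⊆ DTIME(poly(G₁(poly(n))))`,
`PSPACE ⊆ NTIME(poly(G₂(poly(n))))` and `EXP ⊆ DSPACE(poly(G₃(poly(n))))`. In particular, relative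
to some oracle, `NP ⊆ DTIME(2^(n^ε))`, `PSPACE ⊆ NTIME(2^(n^ε))` and `EXP ⊆ DSPACE(2^(n^ε))` hold
for every `ε > 0`.

(helper990)
-/

set_option autoImplicit false

namespace Pool.Agent.Results.MP_71c844_lc.GapTradeoff

open Pool.Agent.NPC Pool.Agent.H620R2.Gauge Pool.Agent.W990.Gap

theorem result :
    (∀ G₁ G₂ G₃ : ℕ → ℕ, Monotone G₁ → Monotone G₂ → Monotone G₃ →
      (∀ n, n ≤ G₁ n) → (∀ n, n ≤ G₂ n) → (∀ n, n ≤ G₃ n) →
      (∃ p : Polynomial ℕ, ∀ n,
        2 ^ n ≤ p.eval (G₁ (p.eval (G₂ (p.eval (G₃ (p.eval n)))))) ∧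
        2 ^ n ≤ p.eval (G₁ (p.eval (G₁ (p.eval (G₃ (p.eval n))))))) →
      ∃ A : Oracle,
        (∀ L, IsNP A L → ∃ a b : Polynomial ℕ,
          IsDTime (fun n => a.eval (G₁ (b.eval n))) A L) ∧
        (∀ L, IsPSPACE A L → ∃ a b : Polynomial ℕ,
          IsNTime (fun n => a.eval (G₂ (b.eval n))) A L) ∧
        (∀ L, IsEXP A L → ∃ a b : Polynomial ℕ,
          IsDSpace (fun n => a.eval (G₃ (b.eval n))) A L)) ∧
    ∃ A : Oracle, ∀ ε : ℝ, 0 < ε →
      (∀ L, IsNP A L → ∃ C : ℕ, IsDTime (fun n => C + ⌊(2 : ℝ) ^ (n : ℝ) ^ ε⌋₊) A L) ∧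
      (∀ L, IsPSPACE A L → ∃ C : ℕ, IsNTime (fun n => C + ⌊(2 : ℝ) ^ (n : ℝ) ^ ε⌋₊) A L) ∧
      (∀ L, IsEXP A L → ∃ C : ℕ, IsDSpace (fun n => C + ⌊(2 : ℝ) ^ (n : ℝ) ^ ε⌋₊) A L) := by
  have main : ∀ G₁ G₂ G₃ : ℕ → ℕ, Monotone G₁ → Monotone G₂ → Monotone G₃ →
      (∀ n, n ≤ G₁ n) → (∀ n, n ≤ G₂ n) → (∀ n, n ≤ G₃ n) →
      (∃ p : Polynomial ℕ, ∀ n,
        2 ^ n ≤ p.eval (G₁ (p.eval (G₂ (p.eval (G₃ (p.eval n)))))) ∧
        2 ^ n ≤ p.eval (G₁ (p.eval (G₁ (p.eval (G₃ (p.eval n))))))) →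
      ∃ A : Oracle,
        (∀ L, IsNP A L → ∃ a b : Polynomial ℕ,
          IsDTime (fun n => a.eval (G₁ (b.eval n))) A L) ∧
        (∀ L, IsPSPACE A L → ∃ a b : Polynomial ℕ,
          IsNTime (fun n => a.eval (G₂ (b.eval n))) A L) ∧
        (∀ L, IsEXP A L → ∃ a b : Polynomial ℕ,
          IsDSpace (fun n => a.eval (G₃ (b.eval n))) A L) := by
    rintro G₁ G₂ G₃ m1 m2 m3 h1 h2 h3 ⟨p, hp⟩
    set q : Polynomial ℕ := p + Polynomial.C 4 * Polynomial.X + Polynomial.C 3 with hq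
    have hqe : ∀ n, q.eval n = p.eval n + 4 * n + 3 := by
      intro n
      rw [hq]
      simp only [Polynomial.eval_add, Polynomial.eval_mul, Polynomial.eval_C, Polynomial.eval_X]
    have hqm : Monotone fun n => q.eval n := fun n m h => eval_mono q h
    have hpq : ∀ n, p.eval n ≤ q.eval n := fun n => by rw [hqe]; omega
    have hnq : ∀ n, 4 * n + 3 ≤ q.eval n := fun n => by rw [hqe]; omega
    have hpqq : ∀ n, p.eval n ≤ q.eval (q.eval n) := fun n => by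
      have := hnq (q.eval n)
      have := hpq n
      omega
    have key : ∀ {G : ℕ → ℕ}, (∀ n, n ≤ G n) → ∀ n, 4 * n + 3 ≤ q.eval (G (q.eval n)) := by
      intro G hG n
      have k1 := hnq (G (q.eval n))
      have k2 := hG (q.eval n)
      have k3 := hnq n
      omega
    have keym : ∀ {G : ℕ → ℕ}, Monotone G → Monotone fun n => q.eval (G (q.eval n)) :=
      fun hG n m h => hqm (hG (hqm h))
    obtain ⟨A, hA1, hA2, hA3, hA4, hA5⟩ := exists_world
      (G1 := fun n => q.eval (G₁ (q.eval n))) (G2 := fun n => q.eval (G₂ (q.eval n)))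
      (G3 := fun n => q.eval (G₃ (q.eval n))) (keym m1) (keym m2) (keym m3)
      (fun n => by have := key h1 n; show n ≤ q.eval (G₁ (q.eval n)); omega) (key h2) (key h3)
      (fun n => by
        refine lt_of_le_of_lt (hp n).2 ?_
        have k1 : p.eval (G₃ (p.eval n)) ≤ q.eval (q.eval (G₃ (q.eval n))) :=
          (hpqq _).trans (hqm (hqm (m3 (hpq n))))
        have k2 : p.eval (G₁ (p.eval (G₃ (p.eval n)))) ≤
            q.eval (q.eval (G₁ (q.eval (q.eval (G₃ (q.eval n)))))) :=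
          (hpqq _).trans (hqm (hqm (m1 k1)))
        have k3 := m1 k2
        show p.eval _ < q.eval (G₁ (q.eval (q.eval (G₁ (q.eval (q.eval (G₃ (q.eval n))))))))
        rw [hqe (G₁ _)]
        have k4 := eval_mono p k3
        omega)
      (fun n => by
        refine lt_of_le_of_lt (hp n).1 ?_
        have k1 : p.eval (G₃ (p.eval n)) ≤ q.eval (q.eval (G₃ (q.eval n))) :=
          (hpqq _).trans (hqm (hqm (m3 (hpq n))))
        have k2 : p.eval (G₂ (p.eval (G₃ (p.eval n)))) ≤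
            q.eval (q.eval (G₂ (q.eval (q.eval (G₃ (q.eval n)))))) :=
          (hpqq _).trans (hqm (hqm (m2 k1)))
        have k3 := m1 k2
        show p.eval _ < q.eval (G₁ (q.eval (q.eval (G₂ (q.eval (q.eval (G₃ (q.eval n))))))))
        rw [hqe (G₁ _)]
        have k4 := eval_mono p k3
        omega)
    refine ⟨A, fun L hL => ?_, fun L hL => ?_, fun L hL => ?_⟩
    · obtain ⟨e, ν, h⟩ := hA1 L hL
      refine ⟨q + Polynomial.C 3, q.comp ν, ?_⟩
      have := isDTime_of_code hA4 h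
      simp only [Polynomial.eval_add, Polynomial.eval_C, Polynomial.eval_comp]
      exact this
    · obtain ⟨e, κ, k1, k2⟩ := hA2 L hL
      refine ⟨q, q.comp κ, ?_⟩
      have := isNTime_of_code (G := fun n => q.eval (G₂ (q.eval n))) k1 k2
      simp only [Polynomial.eval_comp]
      exact this
    · obtain ⟨e, l, h⟩ := hA3 L hL
      refine ⟨q + Polynomial.C 3, q.comp l, ?_⟩
      have := isDSpace_of_code hA5 h
      simp only [Polynomial.eval_add, Polynomial.eval_C, Polynomial.eval_comp]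
      exact this
  refine ⟨main, ?_⟩
  obtain ⟨A, h1, h2, h3⟩ := main tG tG tG tG_mono tG_mono tG_mono le_tG le_tG le_tG
    ⟨Polynomial.X, fun n => by
      simp only [Polynomial.eval_X]
      exact ⟨tG_three n, tG_three n⟩⟩
  refine ⟨A, fun ε hε => ⟨fun L hL => ?_, fun L hL => ?_, fun L hL => ?_⟩⟩
  · obtain ⟨a, b, M, hM⟩ := h1 L hL
    obtain ⟨C, hC⟩ := tG_subexp a b hε
    refine ⟨C, M, fun x => ?_⟩
    obtain ⟨z, hz, hz2⟩ := hM x
    exact ⟨z, M.run_mono A x z _ _ _ (hC x.length) hz, hz2⟩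
  · obtain ⟨a, b, V, hV, hV2⟩ := h2 L hL
    obtain ⟨C, hC⟩ := tG_subexp a b hε
    refine ⟨C, V, hV, fun x => ⟨fun hx => ?_, (hV2 x).2⟩⟩
    obtain ⟨w, hw, hw2⟩ := (hV2 x).1 hx
    exact ⟨w, hw.trans (hC x.length), hw2⟩
  · obtain ⟨a, b, M, hM⟩ := h3 L hL
    obtain ⟨C, hC⟩ := tG_subexp a b hε
    refine ⟨C, M, fun x => ⟨fun s hs => ((hM x).1 s hs).trans (hC x.length), (hM x).2⟩⟩

end Pool.Agent.Results.MP_71c844_lc.GapTradeoff
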