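import Pool.Agent.W901.NU.ShB
import Pool.Agent.W901.NU.ShN

/-!
# Prediction of sets which are hard for exponential time
-/

set_option autoImplicit false

namespace Pool.Agent.Results.MP_71c844_lc.PredictionThreshold

open Filter Pool.Agent.NPC Pool.Agent.W901.AT Pool.Agent.W901.NU
open Pool.Agent.H820R2.SS (InEXPTIME)
open Pool.Agent.H623R2.PS (InPSPACE)

/-- **Prediction of sets which are hard for exponential time.** -/
theorem result (f : ℕ → ℝ) (ε : ℝ) (hε : 0 < ε) (hf : ∀ m : ℕ, 1 ≤ m → f m ≤ Real.sqrt m) :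
    (Tendsto (fun m : ℕ => f m / Real.sqrt (Real.log m)) atTop atTop → List.TFAE
      [∀ L : Set (List Bool), InEXPTIME L → InPSPACE L,
        ∃ A : Set (List Bool), EXPHard A ∧ PredIn InPSPACE f ε A,
        ∀ A : Set (List Bool), InEXPTIME A → FullyPredIn InPSPACE f A]) ∧
    (∀ δ : ℝ, 0 < δ → ∀ A : Set (List Bool), EXPHard A → ¬ Predictable δ ε A) ∧
    (∀ c : ℝ, (∀ m : ℕ, 1 ≤ m → f m ≤ c * Real.sqrt (Real.log m)) →
      ∀ A : Set (List Bool), PredP f ε A) :=
  ⟨fun h => class_law cl_pspace (fun A hA hA' => exp_sub_of_hasAdv cl_pspace A hA hA')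
    node_exp_hard node_exp hε hf h, fun _ hδ _ hA => not_predictable_of_exp hδ hε hA,
    fun _ h A => predP_of_le hf h A⟩

end Pool.Agent.Results.MP_71c844_lc.PredictionThreshold
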