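import Pool.Agent.W60.SE.Dec

/-!
# P, NP and PSPACE are not intersections of uniform descending sequences of time classes

Machines are Mathlib's multi-stack Turing machines `Turing.TM2`, and languages are sets of bit
strings. The class `Subexp` is the intersection of the classes `DTIME(2 ^ (n ^ ε))`, `ε > 0`, where
the machine and the constant may depend on `ε`; more generally `DTimes s` is the intersection of the
classes `DTIME(2 ^ s i n)`, `i = 0, 1, ...`, for a sequence of uniformly constructible exponents
such that `s i n` exceeds every multiple of `s (i + 1) n + log n`. We show that no class which has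
a decidable presentation is equal to such an intersection; in particular P, NP, PSPACE, all leaf
classes (UP, BPP, PP, the levels of the polynomial hierarchy) and all classes of the languages
reducible to a decidable language are different from `Subexp`. If the class is contained in the
intersection then the difference contains a tally language.

The proof is a diagonal argument with two looks back. The language is built in stages. At stage
`i` it is diagonalised against all machines which run for `2 ^ s (i + 1) n` steps, and it looks back,
in polynomial time, at the words of logarithmic length to find out whether the language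
number `i` of the presentation has been left already; only then does stage `i + 1`, with less time,
begin. As the language number `i`, if it equals the language built, can be decided in time
`2 ^ s (i + 2) n`, no stage lasts for ever.
-/

namespace Pool.Agent.Results.MP_71c844_lc.SubexpDistinct

open Pool.Agent.NPC Pool.Agent.W60.SE
open Pool.Agent.H623R2.PS (InPSPACE)

/-- **P, NP, PSPACE, and every class with a decidable presentation, are different from SUBEXP, and
from the intersection of every uniform descending sequence of deterministic time classes.** Let `𝒞`
be P, NP or PSPACE, or the class of the languages reducible to a decidable language, or a leaf class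
with computable condition, or any class with a decidable presentation. Let `ℬ` be `SUBEXP`, or the
intersection of a descending sequence of deterministic time classes. Then `𝒞 ≠ ℬ`, and if `𝒞 ⊆ ℬ`
then some language consisting of words `1 ^ n` is in `ℬ` and not in `𝒞`. -/
theorem result (𝒞 ℬ : Set (Set (List Bool)))
    (h𝒞 : 𝒞 = {L | InP L} ∨ 𝒞 = {L | InNP L} ∨ 𝒞 = {L | InPSPACE L} ∨
      (∃ Q : Set (List Bool), ComputablePred (fun x => x ∈ Q) ∧ 𝒞 = {L | Reduces L Q}) ∨
      (∃ A : List Bool → Option Bool, Computable A ∧ 𝒞 = LeafClass A) ∨
      ∃ f : ℕ → List Bool → Option Bool, Computable₂ f ∧ 𝒞 = Presented f)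
    (hℬ : ℬ = Subexp ∨ ∃ s : ℕ → ℕ → ℕ, Descending s ∧ ℬ = DTimes s) :
    𝒞 ≠ ℬ ∧ (𝒞 ⊆ ℬ → ∃ L ∈ ℬ, (∀ x ∈ L, x = List.replicate x.length true) ∧ L ∉ 𝒞) := by
  have h1 : ∃ f : ℕ → List Bool → Option Bool, Computable₂ f ∧ 𝒞 = Presented f := by
    rcases h𝒞 with rfl | rfl | rfl | ⟨Q, ⟨_, hQ⟩, rfl⟩ | ⟨A, hA, rfl⟩ | h
    · rw [p_eq]
      exact leafClass_presented Primrec.list_head?.to_comp
    · rw [np_eq]
      exact leafClass_presented (Primrec.to_comp (Primrec.option_some.comp primrec_any))
    · exact pspace_presented
    · exact reduces_presented hQ fun x => by simp
    · exact leafClass_presented hA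
    · exact h
  have h2 : ∃ s : ℕ → ℕ → ℕ, Descending s ∧ ℬ = DTimes s := by
    rcases hℬ with rfl | h
    · exact ⟨mu, descending_mu, subexp_eq⟩
    · exact h
  obtain ⟨f, hf, rfl⟩ := h1
  obtain ⟨s, hs, rfl⟩ := h2
  exact ⟨main_ne hs hf, main hs hf⟩

end Pool.Agent.Results.MP_71c844_lc.SubexpDistinct
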